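import Pool.Agent.H74.CC.Api

set_option autoImplicit false

/-!
# [H61 CE Eset] measurability of the set of good circles
-/

namespace Pool.Agent.H61.CE

open MeasureTheory Metric Pool.Agent.H74.CB Pool.Agent.H74.CC

variable {n : ℕ} {P : V n →L[ℂ] V n}

private theorem cont_pair (hP : IsPr P) (f : V n → ℂ) (hf : ContinuousOn f (closedBall (0 : V n) 1)) :
    Continuous (fun q : sphere (0 : V n) 1 × sphere (0 : ℂ) 1 => f (rho P (q.2 : ℂ) (q.1 : V n))) := by
  refine hf.comp_continuous ?_ ?_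
  · unfold rho
    fun_prop
  · intro q
    have h1 : ‖(q.1 : V n)‖ = 1 := by simp
    have h2 : ‖(q.2 : ℂ)‖ = 1 := by simp
    refine rho_closedBall hP _ h2.le _ ?_
    rw [mem_closedBall_zero_iff, h1]

theorem eset_meas (hP : IsPr P) (f g : V n → ℂ) (hf : ContinuousOn f (closedBall (0 : V n) 1))
    (hg : ContinuousOn g (closedBall (0 : V n) 1)) :
    MeasurableSet {ζ : sphere (0 : V n) 1 | ∀ t : ℂ, ‖t‖ = 1 →
      ‖f (rho P t (ζ : V n))‖ = ‖g (rho P t (ζ : V n))‖ ∧ f (rho P t (ζ : V n)) ≠ 0} := by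
  have hF := cont_pair hP f hf
  have hG := cont_pair hP g hg
  have key : {ζ : sphere (0 : V n) 1 | ∀ t : ℂ, ‖t‖ = 1 →
      ‖f (rho P t (ζ : V n))‖ = ‖g (rho P t (ζ : V n))‖ ∧ f (rho P t (ζ : V n)) ≠ 0} =
      (⋂ t : sphere (0 : ℂ) 1, {ζ : sphere (0 : V n) 1 |
        ‖f (rho P (t : ℂ) (ζ : V n))‖ = ‖g (rho P (t : ℂ) (ζ : V n))‖}) ∩
      (Prod.fst '' {q : sphere (0 : V n) 1 × sphere (0 : ℂ) 1 |
        f (rho P (q.2 : ℂ) (q.1 : V n)) = 0})ᶜ := by
    ext ζ
    constructor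
    · intro h
      refine ⟨?_, ?_⟩
      · rw [Set.mem_iInter]
        intro t
        exact (h (t : ℂ) (by simp)).1
      · rintro ⟨q, hq, rfl⟩
        exact (h (q.2 : ℂ) (by simp)).2 hq
    · rintro ⟨h1, h2⟩ t ht
      have ht' : t ∈ sphere (0 : ℂ) 1 := by simpa using ht
      refine ⟨(Set.mem_iInter.1 h1) ⟨t, ht'⟩, fun h0 => h2 ⟨(ζ, ⟨t, ht'⟩), h0, rfl⟩⟩
  rw [key]
  refine MeasurableSet.inter ?_ ?_
  · refine (isClosed_iInter fun t => ?_).measurableSet
    have c1 : Continuous (fun ζ : sphere (0 : V n) 1 => f (rho P (t : ℂ) (ζ : V n))) :=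
      hF.comp (Continuous.prodMk continuous_id continuous_const)
    have c2 : Continuous (fun ζ : sphere (0 : V n) 1 => g (rho P (t : ℂ) (ζ : V n))) :=
      hG.comp (Continuous.prodMk continuous_id continuous_const)
    exact isClosed_eq c1.norm c2.norm
  · have hcl : IsClosed {q : sphere (0 : V n) 1 × sphere (0 : ℂ) 1 |
        f (rho P (q.2 : ℂ) (q.1 : V n)) = 0} := isClosed_eq hF continuous_const
    exact (isClosedMap_fst_of_compactSpace _ hcl).measurableSet.compl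

end Pool.Agent.H61.CE
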